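import Pool.Agent.Y873.FL.Final

set_option autoImplicit false

/-!
# Explicit bounds for the flash-rainbow numbers, uniform in `l`

The edges of the complete graph on `n` linearly ordered vertices are coloured with any number of colours.
An `l`-flash is a monotone path with `l` edges of one colour, a `k`-rainbow is a monotone path with `k` edges
of pairwise distinct colours, and `f(l, k)` is the least integer such that for every `n > f(l, k)` every
colouring has an `l`-flash or a `k`-rainbow. Q1 of MP_f298ee_co asks for `f(l, k) = o(k) l^(k-1)` uniformly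
in `l`. We prove it with an explicit saving: there is a constant `C` such that for all `l, k`

* `f(l, k) ≤ C k exp(-√(log k) / 10) l^(k-1)`,
* `f(l, k) ≤ C k^(1 - 1 / (128 log l)) l^(k-1)` if `l ≥ 2` (a power of `k` is saved for every fixed `l`),
* `f(l, k) ≤ C (1 + log k)^6 (1 + k / √l) l^(k-1)` (a power of `k` is saved if `l` is at least a power of `k`,
  and only a power of `log k` is lost if `l ≥ k²`).
-/

open Filter

namespace Pool.Agent.Results.MP_f298ee_co.ExplicitSaving

/-- The colouring `c` of the edges of the complete graph on the ordered vertex set `Fin n` has an `l`-flash: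
vertices `x 0 < x 1 < ... < x l` such that all the edges `x i, x (i+1)` have the same colour. (Values of `c` on
the diagonal play no role.) -/
def HasFlash {n : ℕ} (c : Sym2 (Fin n) → ℕ) (l : ℕ) : Prop :=
  ∃ x : Fin (l + 1) → Fin n, StrictMono x ∧
    ∀ i j : Fin l, c s(x i.castSucc, x i.succ) = c s(x j.castSucc, x j.succ)

/-- The colouring `c` has a `k`-rainbow: vertices `y 0 < y 1 < ... < y k` such that the edges `y i, y (i+1)`
have pairwise distinct colours. -/
def HasRainbow {n : ℕ} (c : Sym2 (Fin n) → ℕ) (k : ℕ) : Prop :=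
  ∃ y : Fin (k + 1) → Fin n, StrictMono y ∧
    ∀ i j : Fin k, i ≠ j → c s(y i.castSucc, y i.succ) ≠ c s(y j.castSucc, y j.succ)

/-- For every `n > N` every colouring of the edges of the complete graph on `n` ordered vertices has an
`l`-flash or a `k`-rainbow. -/
def Forces (l k N : ℕ) : Prop := ∀ n > N, ∀ c : Sym2 (Fin n) → ℕ, HasFlash c l ∨ HasRainbow c k

/-- The number `f(l, k)`: the least `N` with `Forces l k N`. -/
noncomputable def f (l k : ℕ) : ℕ := sInf {N : ℕ | Forces l k N}

/-- The saving tends to zero. -/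
theorem saving_tendsto (C : ℝ) : Tendsto
    (fun k : ℕ => C * (k * Real.exp (-(1 / 10) * Real.sqrt (Real.log k))) / k) atTop (nhds 0) := by
  have h1 : Tendsto (fun k : ℕ => C * Real.exp (-(1 / 10) * Real.sqrt (Real.log k))) atTop
      (nhds 0) := by
    have h2 : Tendsto (fun k : ℕ => (1 / 10 : ℝ) * Real.sqrt (Real.log k)) atTop atTop :=
      Tendsto.const_mul_atTop (by norm_num)
        (Real.tendsto_sqrt_atTop.comp (Real.tendsto_log_atTop.comp tendsto_natCast_atTop_atTop))
    have h3 := (Real.tendsto_exp_neg_atTop_nhds_zero.comp h2).const_mul C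
    simp only [mul_zero] at h3
    refine h3.congr fun k => ?_
    simp only [Function.comp_apply]
    congr 2
    ring
  refine h1.congr' ?_
  filter_upwards [eventually_gt_atTop 0] with k hk
  have hk0 : (k : ℝ) ≠ 0 := by
    have : (0 : ℝ) < k := by exact_mod_cast hk
    exact this.ne'
  field_simp

/-- For all positive integers `l, k` the least integer `f(l, k)` exists, and there is a constant `C > 0` such
that for all positive integers `l, k`: `f(l, k) ≤ φ(k) l^(k-1)` with `φ(k) = C k exp(-√(log k) / 10)`, where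
`φ(k) / k → 0`; `f(l, k) ≤ C k^(1 - 1 / (128 log l)) l^(k-1)` if `l ≥ 2`; and
`f(l, k) ≤ C (1 + log k)^6 (1 + k / √l) l^(k-1)`. -/
theorem result : (∀ l k : ℕ, 1 ≤ l → 1 ≤ k → IsLeast {N : ℕ | Forces l k N} (f l k)) ∧
    ∃ C : ℝ, 0 < C ∧
      Tendsto (fun k : ℕ => C * (k * Real.exp (-(1 / 10) * Real.sqrt (Real.log k))) / k)
        atTop (nhds 0) ∧
      ∀ l k : ℕ, 1 ≤ l → 1 ≤ k →
        (f l k : ℝ) ≤ C * (k * Real.exp (-(1 / 10) * Real.sqrt (Real.log k))) * (l : ℝ) ^ (k - 1) ∧
        (2 ≤ l → (f l k : ℝ) ≤ C * (k : ℝ) ^ (1 - 1 / (128 * Real.log l)) * (l : ℝ) ^ (k - 1)) ∧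
        (f l k : ℝ) ≤ C * ((1 + Real.log k) ^ 6 * (1 + k / Real.sqrt l)) * (l : ℝ) ^ (k - 1) := by
  refine ⟨fun l k hl hk => ⟨Pool.Agent.TH780.FR.forces_f hl hk, fun _ h => Nat.sInf_le h⟩, ?_⟩
  obtain ⟨C, hC, h⟩ := Pool.Agent.Y873.FL.final
  exact ⟨C, hC, saving_tendsto C, h⟩

end Pool.Agent.Results.MP_f298ee_co.ExplicitSaving
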